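import Pool.Agent.Helper6.NX.GoalsB2

/-! # NX-COREB -/

set_option autoImplicit false
set_option linter.unusedVariables false

namespace Pool.Agent.Helper49.NX

open Matrix Equiv Filter Topology Pool.Agent.Helper15.An Pool.Agent.Helper6.NX

/-- mean of absolute values from the mean square -/
theorem mean_abs_le {n : ℕ} (x : Perm (Fin n) → ℝ) (q : ℝ)
    (h : (n.factorial : ℝ)⁻¹ * ∑ π : Perm (Fin n), x π ^ 2 ≤ q) :
    (n.factorial : ℝ)⁻¹ * ∑ π : Perm (Fin n), |x π| ≤ √q := by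
  have hN : (0 : ℝ) < n.factorial := by exact_mod_cast n.factorial_pos
  have hcard : (Fintype.card (Perm (Fin n)) : ℝ) = n.factorial := by
    rw [Fintype.card_perm, Fintype.card_fin]
  apply Real.le_sqrt_of_sq_le
  have h1 : (∑ π : Perm (Fin n), |x π|) ^ 2 ≤ n.factorial * ∑ π : Perm (Fin n), x π ^ 2 := by
    have := sq_sum_le_card_mul_sum_sq (s := (Finset.univ : Finset (Perm (Fin n))))
      (f := fun π => |x π|)
    simp only [sq_abs, Finset.card_univ] at this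
    rw [hcard] at this
    exact this
  calc ((n.factorial : ℝ)⁻¹ * ∑ π : Perm (Fin n), |x π|) ^ 2
      = (n.factorial : ℝ)⁻¹ ^ 2 * (∑ π : Perm (Fin n), |x π|) ^ 2 := by ring
    _ ≤ (n.factorial : ℝ)⁻¹ ^ 2 * (n.factorial * ∑ π : Perm (Fin n), x π ^ 2) :=
        mul_le_mul_of_nonneg_left h1 (by positivity)
    _ = (n.factorial : ℝ)⁻¹ * ∑ π : Perm (Fin n), x π ^ 2 := by
        field_simp
    _ ≤ q := h

theorem ev1 (δ lam : ℝ) (hδ : 0 < δ) (hlam : 0 < lam) : ∀ᶠ n : ℕ in atTop,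
    ((n : ℝ) ^ (-(3 * δ)) + 2 * √((n : ℝ) ^ (-(3 * δ)))) ^ 2 + 8 / √(n : ℝ) +
      9600 / lam / √(n : ℝ) ≤ 100 * lam := by
  have h1 : Tendsto (fun n : ℕ => (n : ℝ) ^ (-(3 * δ))) atTop (𝓝 0) :=
    (tendsto_rpow_neg_atTop (by positivity)).comp tendsto_natCast_atTop_atTop
  have h2 : Tendsto (fun n : ℕ => √(n : ℝ)) atTop atTop :=
    Real.tendsto_sqrt_atTop.comp tendsto_natCast_atTop_atTop
  have h3 : Tendsto (fun n : ℕ => √((n : ℝ) ^ (-(3 * δ)))) atTop (𝓝 0) := by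
    have h := (Real.continuous_sqrt.tendsto 0).comp h1
    rw [Real.sqrt_zero] at h
    exact h
  have h4 : Tendsto (fun n : ℕ => ((n : ℝ) ^ (-(3 * δ)) + 2 * √((n : ℝ) ^ (-(3 * δ)))) ^ 2 +
      8 / √(n : ℝ) + 9600 / lam / √(n : ℝ)) atTop (𝓝 ((0 + 2 * 0) ^ 2 + 0 + 0)) :=
    (((h1.add (h3.const_mul 2)).pow 2).add (h2.const_div_atTop 8)).add (h2.const_div_atTop _)
  have h5 : ((0 : ℝ) + 2 * 0) ^ 2 + 0 + 0 < 100 * lam := by
    have : (0 : ℝ) < 100 * lam := by positivity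
    simpa using this
  exact (h4.eventually_lt_const h5).mono fun n hn => hn.le

theorem ev2 (lam : ℝ) (hlam : 0 < lam) : ∀ᶠ n : ℕ in atTop,
    Real.log 2 / Real.log (n : ℝ) ≤ √lam := by
  have h1 : Tendsto (fun n : ℕ => Real.log (n : ℝ)) atTop atTop :=
    Real.tendsto_log_atTop.comp tendsto_natCast_atTop_atTop
  exact ((h1.const_div_atTop (Real.log 2)).eventually_lt_const
    (Real.sqrt_pos.2 hlam)).mono fun n hn => hn.le

theorem ev3 (lam : ℝ) (hlam : 0 < lam) : ∀ᶠ n : ℕ in atTop,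
    (n : ℝ) ^ (-(1 / 320000 : ℝ)) ≤ √lam := by
  have h1 : Tendsto (fun n : ℕ => (n : ℝ) ^ (-(1 / 320000 : ℝ))) atTop (𝓝 0) :=
    (tendsto_rpow_neg_atTop (by norm_num)).comp tendsto_natCast_atTop_atTop
  exact (h1.eventually_lt_const (Real.sqrt_pos.2 hlam)).mono fun n hn => hn.le

theorem thmCOREB (hvp : Pool.Agent.Helper6.NX.S_VP) (hfw : Pool.Agent.Helper6.NX.S_FW)
    (hhom : Pool.Agent.Helper6.NX.S_HOM) (hheavy : Pool.Agent.Helper6.NX.S_HEAVY)
    (hs2a : Pool.Agent.Helper6.NX.S_S2A) (hcol : Pool.Agent.Helper6.NX.S_COL) :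
    Pool.Agent.Helper6.NX.S_COREB := by
  intro δ lam τ c₀ hδ hδ2 hlam hlam1 hτ hc₀ hc₀2
  filter_upwards [hhom, ev1 δ lam hδ hlam, ev2 lam hlam, ev3 lam hlam, eventually_ge_atTop 6]
    with n hH he1 he2 he3 hn6
  intro ν ω L k hC hL hk hkn hV hτk hlamk hLK
  have hn3 : 3 ≤ n := by omega
  have hnR : (6 : ℝ) ≤ n := by exact_mod_cast hn6
  have hn0 : (0 : ℝ) < n := by linarith
  have hlog : 0 < Real.log (n : ℝ) := Real.log_pos (by linarith)
  obtain ⟨-, hFF, hmono, hVA, hVV, -, -⟩ := hvp n ν (by omega) hC.hν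
  set K : ℝ := H ν / Real.log n with hK
  have hKlo : (n : ℝ) ^ (1 - δ) ≤ K := by
    rw [hK, le_div_iff₀ hlog]
    exact hC.lo
  have hKpos : 0 < K := lt_of_lt_of_le (Real.rpow_pos_of_pos hn0 _) hKlo
  have hKhi : K ≤ c₀ * n := by
    rw [hK, div_le_iff₀ hlog]
    exact hC.hi
  have hkc : (k : ℝ) ≤ 1200 * (c₀ * n) := hk.trans (mul_le_mul_of_nonneg_left hKhi (by norm_num))
  have hkh : (k : ℝ) ≤ n / 2 := by nlinarith
  have hk3 : k + 3 ≤ n := by
    have : (k : ℝ) + 3 ≤ n := by linarith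
    exact_mod_cast this
  have hsp : IsSP (Set.univ) ω :=
    ⟨hC.hω.nonneg, hC.hω.sum, hC.hω.symm, fun g hg => absurd (Set.mem_univ g) hg⟩
  set θ : ℝ := (n : ℝ) ^ (-(3 * δ)) with hθ
  have hθ0 : 0 ≤ θ := Real.rpow_nonneg hn0.le _
  have he0 : 0 ≤ θ + 2 * √θ := by positivity
  have hhom2 := hH k L hkn (FF ν) ω (θ + 2 * √θ) hk3 hL hsp he0 hC.low hFF hmono
    (fun w hw p D => (hfw n ν w θ hn3 hC.hν (hC.near w hw) p D).1)
  rw [← hVA k, ← hVA (k + L)] at hhom2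
  have hsn : 0 < √(n : ℝ) := Real.sqrt_pos.2 hn0
  have hLpos : (0 : ℝ) < L := by exact_mod_cast hL
  have hkL : 8 * (k : ℝ) / (L * √(n : ℝ)) ≤ 9600 / lam / √(n : ℝ) := by
    rw [← div_div]
    apply div_le_div_of_nonneg_right _ hsn.le
    rw [div_le_div_iff₀ hLpos hlam]
    have h1 : lam * K ≤ L := hLK
    nlinarith
  have hsq : (n.factorial : ℝ)⁻¹ * ∑ π : Perm (Fin n),
      (FF ν (π ⟨k, hkn⟩) (im π (ini n k)) - VV ν k) ^ 2 ≤ 900 * lam := by
    refine hhom2.trans ?_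
    linarith
  have hσ := mean_abs_le (fun π : Perm (Fin n) => FF ν (π ⟨k, hkn⟩) (im π (ini n k)) - VV ν k)
    (900 * lam) hsq
  have h900 : √(900 * lam) = 30 * √lam := by
    rw [Real.sqrt_mul (by norm_num)]
    congr 1
    rw [show (900 : ℝ) = 30 ^ 2 by norm_num]
    exact Real.sqrt_sq (by norm_num)
  rw [h900] at hσ
  have hs0 : 0 ≤ VV ν k / 2 := by linarith [(hVV k).1]
  have hheavy2 := hheavy n k hkn ν (30 * √lam) (VV ν k / 2) hn3 hC.hν hs0 hσ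
  obtain ⟨-, -, -, h4⟩ := hs2a n k hkn ν hn3 hC.hν
  have h4' := h4 (VV ν k / 2) hs0
  set a : ℝ := (n.factorial : ℝ)⁻¹ * ∑ π : Perm (Fin n), ∑ f,
    (if (n : ℝ) ^ (-(VV ν k / 2)) ≤ kap ν k hkn π f then ν f else 0) with ha
  have ha0 : 0 ≤ a := by
    rw [ha]
    apply mul_nonneg (by positivity)
    apply Finset.sum_nonneg
    intro π _
    apply Finset.sum_nonneg
    intro f _
    split_ifs
    · exact hC.hν.1 f
    · exact le_rfl
  have ha1 : a ≤ 320000 * (200 * τ + 31 * √lam) := by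
    have h5 : a * (1 / 320000) ≤ a * (VV ν k - VV ν k / 2) :=
      mul_le_mul_of_nonneg_left (by linarith) ha0
    linarith
  have hnpow : (n : ℝ) ^ (-(VV ν k / 2)) ≤ √lam := by
    refine le_trans ?_ he3
    exact Real.rpow_le_rpow_of_exponent_le (by linarith) (by linarith)
  obtain ⟨-, hcol2⟩ := hcol n k hkn ν hC.hν
  refine hcol2.trans ?_
  have hsl : 0 ≤ √lam := Real.sqrt_nonneg _
  have h6 : (n.factorial : ℝ)⁻¹ * ∑ π : Perm (Fin n), ∑ f, ν f * kap ν k hkn π f ≤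
      320000 * (200 * τ + 32 * √lam) := by
    refine h4'.trans ?_
    linarith
  have h7 := mul_le_mul_of_nonneg_left h6 hn0.le
  have h8 : 0 ≤ c₀ * n := by positivity
  linarith

end Pool.Agent.Helper49.NX
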